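import Pool.Agent.W548.MQ.Stm2

set_option autoImplicit false

open WithZero IsDedekindDomain

namespace Pool.Agent.W949.MQ

universe u w

theorem t_CL2 : W548.MQ.S_CL2.{u, w} := by
  intro B _ _ _ L _ _ _ x hx hx1
  obtain ⟨J, rfl⟩ := ClassGroup.mk0_surjective x
  have hJ0 : (J : Ideal B) ≠ 0 := nonZeroDivisors.ne_zero J.2
  have hsq : ClassGroup.mk0 (J ^ 2) = 1 := by rw [map_pow, hx]
  rw [ClassGroup.mk0_eq_one_iff] at hsq
  obtain ⟨f, hf⟩ := hsq.principal
  have hf' : (J : Ideal B) ^ 2 = Ideal.span {f} := by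
    rw [← SubmonoidClass.coe_pow, hf]
  have hf0 : f ≠ 0 := by
    rintro rfl
    apply pow_ne_zero 2 hJ0
    rw [hf']; simp
  have hfL : algebraMap B L f ≠ 0 := by
    intro h
    exact hf0 ((IsFractionRing.to_map_eq_zero_iff (K := L)).1 h)
  refine ⟨Units.mk0 _ hfL, fun v => ?_, fun u c h => ?_⟩
  · unfold W548.MQ.ord
    rw [Units.val_mk0, HeightOneSpectrum.valuation_of_algebraMap,
      HeightOneSpectrum.intValuation_if_neg _ hf0, ← hf', log_exp, neg_neg]
    have hJa : Associates.mk (J : Ideal B) ≠ 0 := by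
      rw [Ne, Associates.mk_eq_zero]; exact hJ0
    rw [Associates.mk_pow, Associates.count_pow hJa v.associates_irreducible]
    push_cast
    exact even_two_mul _
  · rw [Units.val_mk0] at h
    have hc2 : IsIntegral B ((c : L) ^ 2) := by
      have : (c : L) ^ 2 = algebraMap B L ((u⁻¹ : Bˣ) * f) := by
        rw [map_mul, h, ← mul_assoc, ← map_mul, Units.inv_mul, map_one, one_mul]
      rw [this]
      exact isIntegral_algebraMap
    have hc : IsIntegral B (c : L) := IsIntegral.of_pow two_pos hc2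
    obtain ⟨g, hg⟩ := (IsIntegrallyClosed.isIntegral_iff (R := B) (K := L)).1 hc
    have hfg : f = u * g ^ 2 := by
      apply IsFractionRing.injective B L
      rw [h, map_mul, map_pow, hg]
    have hspan : (J : Ideal B) ^ 2 = (Ideal.span {g}) ^ 2 := by
      rw [hf', hfg, Ideal.span_singleton_pow, Ideal.span_singleton_mul_left_unit u.isUnit]
    have hJg : (J : Ideal B) = Ideal.span {g} := by
      apply le_antisymm
      · apply Ideal.le_of_dvd
        exact (UniqueFactorizationMonoid.pow_dvd_pow_iff_dvd two_ne_zero).1 (dvd_of_eq hspan.symm)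
      · apply Ideal.le_of_dvd
        exact (UniqueFactorizationMonoid.pow_dvd_pow_iff_dvd two_ne_zero).1 (dvd_of_eq hspan)
    apply hx1
    rw [ClassGroup.mk0_eq_one_iff]
    exact ⟨g, hJg⟩

end Pool.Agent.W949.MQ
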